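import Pool.Agent.Lib.MP_3a5363_co.AllM

set_option autoImplicit false

namespace Pool.Agent.Results.MP_3a5363_co.InitialRowsMinimise

open Pool.Agent.Lib.MP_3a5363_co Finset

/-- For every number `m` of rows of the Sylvester matrix, the first `m` rows have the smallest
`ℓ₁` norm of the sum (rows are indexed from `0`). -/
theorem result (n m : ℕ) (σ : Equiv.Perm (Fin (2 ^ n))) :
    ∑ i : Fin (2 ^ n), |∑ k ∈ univ.filter (fun k : Fin (2 ^ n) => k.val < m), sylvester n k i| ≤
      ∑ i : Fin (2 ^ n),
        |∑ k ∈ univ.filter (fun k : Fin (2 ^ n) => k.val < m), sylvester n (σ k) i| := by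
  have h := main (sylvester n) (sylvester_pm n) (sylvester_mul n)
    ((univ.filter fun k : Fin (2 ^ n) => k.val < m).map σ.toEmbedding)
  rw [card_map, Fin.card_filter_val_lt, Fintype.card_fin] at h
  push_cast at h
  rw [← am_norm n _ (min_le_left _ _)] at h
  simp only [sum_map, Equiv.coe_toEmbedding] at h
  refine le_trans (le_of_eq (sum_congr rfl fun i _ => ?_)) h
  rw [sum_filter, amD]
  congr 1
  exact sum_congr rfl fun k _ => if_congr (by simp [k.2]) rfl rfl

end Pool.Agent.Results.MP_3a5363_co.InitialRowsMinimise
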