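import Pool.Agent.Lib.MP_3a5363_co.Main

set_option autoImplicit false

namespace Pool.Agent.Results.MP_3a5363_co.MinNorm

open Pool.Agent.Lib.MP_3a5363_co Finset

/-- For every permutation of the rows of the Sylvester matrix, the sum of the first `m_n` rows has
`ℓ₁` norm at least `ϱ_n` (rows are indexed from `0`). -/
theorem result (n : ℕ) (σ : Equiv.Perm (Fin (2 ^ n))) :
    (3 * (n : ℝ) + 7) * 2 ^ n / 9 + 2 * (-1) ^ n / 9 ≤
      ∑ i : Fin (2 ^ n),
        |∑ k ∈ univ.filter (fun k : Fin (2 ^ n) => (k.val : ℝ) < (2 ^ (n + 1) + (-1) ^ n) / 3),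
          sylvester n (σ k) i| := by
  have h := main (sylvester n) (sylvester_pm n) (sylvester_mul n)
    ((univ.filter fun k : Fin (2 ^ n) => (k.val : ℝ) < (2 ^ (n + 1) + (-1) ^ n) / 3).map
      σ.toEmbedding)
  have hc : (univ.filter fun k : Fin (2 ^ n) =>
      (k.val : ℝ) < (2 ^ (n + 1) + (-1) ^ n) / 3).card = jac n := by
    rw [← jac_cast]
    simp only [Nat.cast_lt]
    rw [Fin.card_filter_val_lt]
    exact min_eq_right (jac_le n)
  rw [card_map, hc, Fintype.card_fin] at h
  push_cast at h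
  rw [leb_jac] at h
  simpa only [sum_map, Equiv.coe_toEmbedding] using h

end Pool.Agent.Results.MP_3a5363_co.MinNorm
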